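import Pool.Agent.Q147.TRPow

/-!
# MP_b89b7d, Q1: a topological Ramsey space with a Borel set of codes

For the space `P(ω)` of all sets of integers, ordered by inclusion, with the approximations
`A ∩ n`, the set of codes for `G_delta` Ramsey positive sets is Borel, hence not
`Σ¹₂`-complete.
-/

namespace Pool.Agent.Results.MP_b89b7d_lc.BorelCodes

open Pool.Agent.Q147.TR

/-- **There is a topological Ramsey space with countably many approximations such that, for
every coding, the set of codes for `G_delta` Ramsey positive sets is Borel and not
`Σ¹₂`-complete.** -/
theorem result : ∃ S : TRS, Countable S.AR ∧ ¬ Countable S.R ∧ ∀ e : ℕ × S.AR → ℕ,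
    Function.Injective e → MeasurableSet (S.codes e) ∧ ¬ Complete12 (S.codes e) := by
  refine ⟨powTRS, inferInstanceAs (Countable Fa), ?_, fun e _ =>
    ⟨measurable_codes e, not_complete_of_measurable (measurable_codes e)⟩⟩
  intro h
  have : Countable (Set ℕ) := h
  exact Function.cantor_surjective _ (exists_surjective_nat (Set ℕ)).choose_spec

end Pool.Agent.Results.MP_b89b7d_lc.BorelCodes
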